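import Mathlib

set_option maxRecDepth 100000

namespace Pool.Agent.Results.MP_cadcf7_co.CoefficientFive

open Equiv

/-- Reversal of darts (ordered adjacent pairs) of a simple graph. -/
def revPerm {V : Type} (G : SimpleGraph V) : Perm G.Dart :=
  ⟨SimpleGraph.Dart.symm, SimpleGraph.Dart.symm, fun d => d.symm_symm, fun d => d.symm_symm⟩

/-- A finite connected simple plane graph on the vertex set `V`, given by its rotation system:
`rot` sends a dart `(v, w)` to the next dart leaving `v` in the cyclic order of the embedding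
around `v`.  The faces are the cycles of `d ↦ rot (reverse of d)`, and the embedding is into the
sphere (equivalently, the plane) exactly when Euler's formula `|V| + |F| = |E| + 2` holds. -/
structure PlaneGraph (V : Type) where
  graph : SimpleGraph V
  rot : Perm graph.Dart
  rot_fst : ∀ d, (rot d).fst = d.fst
  rot_cycle : ∀ d e : graph.Dart, d.fst = e.fst → rot.SameCycle d e
  connected : graph.Connected
  finite : Finite V
  euler : Nat.card V + Nat.card (Quotient (Perm.SameCycle.setoid (rot * revPerm graph))) =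
    Nat.card graph.edgeSet + 2

namespace PlaneGraph

variable {V : Type} (P : PlaneGraph V)

/-- The next dart on the boundary walk of the face on a fixed side of a dart. -/
def faceNext : Perm P.graph.Dart := P.rot * revPerm P.graph

/-- The faces: the cycles of `faceNext`. -/
abbrev Face : Type := Quotient (Perm.SameCycle.setoid P.faceNext)

/-- The degree of a vertex. -/
noncomputable def deg (v : V) : ℕ := Nat.card (P.graph.neighborSet v)

/-- `d` lies on the boundary walk of a triangular face whose three boundary vertices have degrees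
`i`, `j`, `k`, as a multiset. -/
def OnTriangle (i j k : ℕ) (d : P.graph.Dart) : Prop :=
  P.faceNext (P.faceNext (P.faceNext d)) = d ∧
    ({P.deg d.fst, P.deg (P.faceNext d).fst, P.deg (P.faceNext (P.faceNext d)).fst} : Multiset ℕ) =
      {i, j, k}

/-- The number of triangular faces whose three boundary vertices have degrees `i`, `j`, `k`. -/
noncomputable def f (i j k : ℕ) : ℕ :=
  Nat.card {F : P.Face // ∃ d : P.graph.Dart, (Quotient.mk _ d : P.Face) = F ∧
    P.OnTriangle i j k d}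

end PlaneGraph

/-! ### Counting cycles of length three -/

lemma sameCycle_three {D : Type} (φ : Perm D) (h3 : ∀ d, φ (φ (φ d)) = d) (d e : D)
    (h : φ.SameCycle d e) : e = d ∨ e = φ d ∨ e = φ (φ d) := by
  obtain ⟨i, hi⟩ := h
  have hc : φ ^ (3 : ℤ) = 1 := by
    ext x
    have : (φ ^ (3 : ℤ)) x = φ (φ (φ x)) := by
      rw [show (3 : ℤ) = ((3 : ℕ) : ℤ) from rfl, zpow_natCast]
      simp [pow_succ]
    rw [this, h3]; rfl
  have key : φ ^ i = φ ^ (i % 3) := by
    conv_lhs => rw [← Int.mul_ediv_add_emod i 3]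
    rw [zpow_add, zpow_mul, hc, one_zpow, one_mul]
  rw [key] at hi
  have h0 : 0 ≤ i % 3 := Int.emod_nonneg _ (by norm_num)
  have h1 : i % 3 < 3 := Int.emod_lt_of_pos _ (by norm_num)
  generalize i % 3 = r at hi h0 h1
  interval_cases r
  · left; simpa using hi.symm
  · right; left; simpa using hi.symm
  · right; right
    rw [← hi, show (2 : ℤ) = ((2 : ℕ) : ℤ) from rfl, zpow_natCast]
    simp [pow_succ]

lemma three_mul_card {D : Type} [Finite D] (φ : Perm D) (h3 : ∀ d, φ (φ (φ d)) = d)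
    (hne : ∀ d, φ d ≠ d) (Q : D → Prop) (hQ : ∀ d, Q d → Q (φ d)) :
    Nat.card {F : Quotient (Perm.SameCycle.setoid φ) // ∃ d, (Quotient.mk _ d : Quotient
      (Perm.SameCycle.setoid φ)) = F ∧ Q d} * 3 = Nat.card {d // Q d} := by
  classical
  have := Fintype.ofFinite D
  let S := {d // Q d}
  let T := {F : Quotient (Perm.SameCycle.setoid φ) // ∃ d, (Quotient.mk _ d : Quotient
      (Perm.SameCycle.setoid φ)) = F ∧ Q d}
  have : Fintype T := Fintype.ofFinite T
  let g : S → T := fun s => ⟨Quotient.mk _ s.1, s.1, rfl, s.2⟩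
  have hfib : ∀ t : T, (Finset.univ.filter (fun s : S => g s = t)).card = 3 := by
    rintro ⟨F, d, rfl, hd⟩
    have hd1 := hQ d hd
    have hd2 := hQ _ hd1
    have hset : (Finset.univ.filter (fun s : S => g s = ⟨Quotient.mk _ d, d, rfl, hd⟩)) =
        {(⟨d, hd⟩ : S), ⟨φ d, hd1⟩, ⟨φ (φ d), hd2⟩} := by
      ext s
      simp only [Finset.mem_filter, Finset.mem_univ, true_and, Finset.mem_insert,
        Finset.mem_singleton]
      constructor
      · intro hs
        have h1 : (Quotient.mk _ s.1 : Quotient (Perm.SameCycle.setoid φ)) = Quotient.mk _ d :=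
          congrArg Subtype.val hs
        have h2 : φ.SameCycle s.1 d := Quotient.exact h1
        rcases sameCycle_three φ h3 d s.1 h2.symm with h | h | h
        · left; exact Subtype.ext h
        · right; left; exact Subtype.ext h
        · right; right; exact Subtype.ext h
      · intro hs
        apply Subtype.ext
        show (Quotient.mk _ s.1 : Quotient (Perm.SameCycle.setoid φ)) = Quotient.mk _ d
        apply Quotient.sound
        show φ.SameCycle s.1 d
        rcases hs with h | h | h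
        · rw [h]
        · rw [h]; exact (Perm.sameCycle_apply_left.2 (Perm.SameCycle.refl _ _))
        · rw [h]
          exact (Perm.sameCycle_apply_left.2 (Perm.sameCycle_apply_left.2
            (Perm.SameCycle.refl _ _)))
    rw [hset, Finset.card_eq_three]
    refine ⟨_, _, _, ?_, ?_, ?_, rfl⟩
    · intro h; exact hne d (congrArg Subtype.val h).symm
    · intro h
      have h' : d = φ (φ d) := congrArg Subtype.val h
      apply hne d
      calc φ d = φ (φ (φ d)) := congrArg φ h'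
        _ = d := h3 d
    · intro h
      exact hne (φ d) (congrArg Subtype.val h).symm
  rw [Nat.card_eq_fintype_card, Nat.card_eq_fintype_card]
  have h := Finset.card_eq_sum_card_fiberwise (s := (Finset.univ : Finset S))
    (t := (Finset.univ : Finset T)) (f := g) (fun _ _ => Finset.mem_univ _)
  have h' : Fintype.card S = ∑ t : T, 3 := by
    rw [← Finset.card_univ, h]
    exact Finset.sum_congr rfl (fun t _ => hfib t)
  rw [Finset.sum_const, Finset.card_univ, smul_eq_mul] at h'
  convert h'.symm using 1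

/-! ### The example with 114 vertices -/

/-- Neighbours in cyclic order; the list of vertex `v` is entry `v % 11` of block `v / 11`. -/
def tbl : List (List (List ℕ)) :=
  [[[1, 2, 3, 4, 5, 6, 7, 8],
    [0, 8, 9, 10, 2],
    [0, 1, 10, 11, 3],
    [0, 2, 11, 12, 4],
    [0, 3, 12, 13, 5],
    [0, 4, 13, 14, 6],
    [0, 5, 14, 15, 7],
    [0, 6, 15, 16, 8],
    [0, 7, 16, 9, 1],
    [1, 8, 16, 17, 18, 19, 10],
    [1, 9, 19, 20, 21, 11, 2]],
   [[2, 10, 21, 22, 23, 12, 3],
    [3, 11, 23, 24, 25, 13, 4],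
    [4, 12, 25, 26, 27, 14, 5],
    [5, 13, 27, 28, 29, 15, 6],
    [6, 14, 29, 30, 31, 16, 7],
    [7, 15, 31, 32, 17, 9, 8],
    [9, 16, 32, 33, 18],
    [9, 17, 33, 34, 35, 19],
    [9, 18, 35, 20, 10],
    [10, 19, 35, 36, 37, 21],
    [10, 20, 37, 22, 11]],
   [[11, 21, 37, 38, 39, 23],
    [11, 22, 39, 24, 12],
    [12, 23, 39, 40, 41, 25],
    [12, 24, 41, 26, 13],
    [13, 25, 41, 42, 43, 27],
    [13, 26, 43, 28, 14],
    [14, 27, 43, 44, 45, 29],
    [14, 28, 45, 30, 15],
    [15, 29, 45, 46, 47, 31],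
    [15, 30, 47, 32, 16],
    [16, 31, 47, 48, 33, 17]],
   [[17, 32, 48, 49, 50, 34, 18],
    [18, 33, 50, 51, 35],
    [18, 34, 51, 52, 36, 20, 19],
    [20, 35, 52, 53, 37],
    [20, 36, 53, 54, 38, 22, 21],
    [22, 37, 54, 55, 39],
    [22, 38, 55, 56, 40, 24, 23],
    [24, 39, 56, 57, 41],
    [24, 40, 57, 58, 42, 26, 25],
    [26, 41, 58, 59, 43],
    [26, 42, 59, 60, 44, 28, 27]],
   [[28, 43, 60, 61, 45],
    [28, 44, 61, 62, 46, 30, 29],
    [30, 45, 62, 63, 47],
    [30, 46, 63, 64, 48, 32, 31],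
    [32, 47, 64, 49, 33],
    [33, 48, 64, 65, 66, 50],
    [33, 49, 66, 67, 51, 34],
    [34, 50, 67, 68, 52, 35],
    [35, 51, 68, 69, 53, 36],
    [36, 52, 69, 70, 54, 37],
    [37, 53, 70, 71, 55, 38]],
   [[38, 54, 71, 72, 56, 39],
    [39, 55, 72, 73, 57, 40],
    [40, 56, 73, 74, 58, 41],
    [41, 57, 74, 75, 59, 42],
    [42, 58, 75, 76, 60, 43],
    [43, 59, 76, 77, 61, 44],
    [44, 60, 77, 78, 62, 45],
    [45, 61, 78, 79, 63, 46],
    [46, 62, 79, 80, 64, 47],
    [47, 63, 80, 65, 49, 48],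
    [49, 64, 80, 81, 66]],
   [[49, 65, 81, 82, 83, 67, 50],
    [50, 66, 83, 68, 51],
    [51, 67, 83, 84, 85, 69, 52],
    [52, 68, 85, 70, 53],
    [53, 69, 85, 86, 87, 71, 54],
    [54, 70, 87, 72, 55],
    [55, 71, 87, 88, 89, 73, 56],
    [56, 72, 89, 74, 57],
    [57, 73, 89, 90, 91, 75, 58],
    [58, 74, 91, 76, 59],
    [59, 75, 91, 92, 93, 77, 60]],
   [[60, 76, 93, 78, 61],
    [61, 77, 93, 94, 95, 79, 62],
    [62, 78, 95, 80, 63],
    [63, 79, 95, 96, 81, 65, 64],
    [65, 80, 96, 97, 82, 66],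
    [66, 81, 97, 98, 83],
    [66, 82, 98, 84, 68, 67],
    [68, 83, 98, 99, 85],
    [68, 84, 99, 86, 70, 69],
    [70, 85, 99, 100, 87],
    [70, 86, 100, 88, 72, 71]],
   [[72, 87, 100, 101, 89],
    [72, 88, 101, 90, 74, 73],
    [74, 89, 101, 102, 91],
    [74, 90, 102, 92, 76, 75],
    [76, 91, 102, 103, 93],
    [76, 92, 103, 94, 78, 77],
    [78, 93, 103, 104, 95],
    [78, 94, 104, 96, 80, 79],
    [80, 95, 104, 97, 81],
    [81, 96, 104, 105, 106, 98, 82],
    [82, 97, 106, 107, 99, 84, 83]],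
   [[84, 98, 107, 108, 100, 86, 85],
    [86, 99, 108, 109, 101, 88, 87],
    [88, 100, 109, 110, 102, 90, 89],
    [90, 101, 110, 111, 103, 92, 91],
    [92, 102, 111, 112, 104, 94, 93],
    [94, 103, 112, 105, 97, 96, 95],
    [97, 104, 112, 113, 106],
    [97, 105, 113, 107, 98],
    [98, 106, 113, 108, 99],
    [99, 107, 113, 109, 100],
    [100, 108, 113, 110, 101]],
   [[101, 109, 113, 111, 102],
    [102, 110, 113, 112, 103],
    [103, 111, 113, 105, 104],
    [105, 112, 111, 110, 109, 108, 107, 106]]]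

def nbr (v : ℕ) : List ℕ := (tbl.getD (v / 11) []).getD (v % 11) []

def adjB (v w : Fin 114) : Bool := (nbr v.1).contains w.1

def nextAux (first w : ℕ) : List ℕ → ℕ
  | [] => first
  | a :: t => if a = w then t.headD first else nextAux first w t

def nextIn (l : List ℕ) (w : ℕ) : ℕ := nextAux (l.headD 0) w l

def nx (v w : Fin 114) : Fin 114 := Fin.ofNat 114 (nextIn (nbr v.1) w.1)

def pv (v w : Fin 114) : Fin 114 := Fin.ofNat 114 (nextIn (nbr v.1).reverse w.1)

def fst (v : Fin 114) : Fin 114 := Fin.ofNat 114 ((nbr v.1).headD 0)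

def rowT : List (List (ℕ × ℕ × ℕ)) :=
  [[(8, 0, 0), (5, 2, 0), (5, 2, 0), (5, 2, 0), (5, 2, 0), (5, 2, 0), (5, 2, 0), (5, 2, 0), (5, 2, 0), (7, 1, 0), (7, 1, 0)],
   [(7, 1, 0), (7, 1, 0), (7, 1, 0), (7, 1, 0), (7, 1, 0), (7, 1, 0), (5, 0, 0), (6, 0, 0), (5, 0, 0), (6, 0, 0), (5, 0, 0)],
   [(6, 0, 0), (5, 0, 0), (6, 0, 0), (5, 0, 0), (6, 0, 0), (5, 0, 0), (6, 0, 0), (5, 0, 0), (6, 0, 0), (5, 0, 0), (6, 0, 0)],
   [(7, 0, 0), (5, 0, 1), (7, 0, 0), (5, 0, 1), (7, 0, 0), (5, 0, 1), (7, 0, 0), (5, 0, 1), (7, 0, 0), (5, 0, 1), (7, 0, 0)],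
   [(5, 0, 1), (7, 0, 0), (5, 0, 1), (7, 0, 0), (5, 0, 1), (6, 0, 2), (6, 0, 2), (6, 0, 2), (6, 0, 2), (6, 0, 2), (6, 0, 2)],
   [(6, 0, 2), (6, 0, 2), (6, 0, 2), (6, 0, 2), (6, 0, 2), (6, 0, 2), (6, 0, 2), (6, 0, 2), (6, 0, 2), (6, 0, 2), (5, 0, 1)],
   [(7, 0, 0), (5, 0, 1), (7, 0, 0), (5, 0, 1), (7, 0, 0), (5, 0, 1), (7, 0, 0), (5, 0, 1), (7, 0, 0), (5, 0, 1), (7, 0, 0)],
   [(5, 0, 1), (7, 0, 0), (5, 0, 1), (7, 0, 0), (6, 0, 0), (5, 0, 0), (6, 0, 0), (5, 0, 0), (6, 0, 0), (5, 0, 0), (6, 0, 0)],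
   [(5, 0, 0), (6, 0, 0), (5, 0, 0), (6, 0, 0), (5, 0, 0), (6, 0, 0), (5, 0, 0), (6, 0, 0), (5, 0, 0), (7, 1, 0), (7, 1, 0)],
   [(7, 1, 0), (7, 1, 0), (7, 1, 0), (7, 1, 0), (7, 1, 0), (7, 1, 0), (5, 2, 0), (5, 2, 0), (5, 2, 0), (5, 2, 0), (5, 2, 0)],
   [(5, 2, 0), (5, 2, 0), (5, 2, 0), (8, 0, 0)]]

def rowV (v : Fin 114) : ℕ × ℕ × ℕ := (rowT.getD (v.1 / 11) []).getD (v.1 % 11) (0, 0, 0)

def dg (v : Fin 114) : ℕ := (rowV v).1

def tri (i j k : ℕ) (v w : Fin 114) : Bool :=
  decide (({dg v, dg w, dg (nx w v)} : Multiset ℕ) = {i, j, k})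

/-- All facts about the table that concern a single dart. -/
lemma big : ∀ v w : Fin 114, adjB v w = true → (adjB w v = true ∧
    (adjB v (nx v w) = true ∧ pv v (nx v w) = w) ∧
    (adjB v (pv v w) = true ∧ nx v (pv v w) = w) ∧
    (∃ k : Fin 8, (nx v)^[k.1] (fst v) = w) ∧
    (nx (nx w v) w = v ∧ nx v (nx w v) = w) ∧
    tri 5 5 5 v w = false ∧ tri 5 5 6 v w = false) := by decide +kernel

def row (v : Fin 114) : ℕ × ℕ × ℕ :=
  ∑ w : Fin 114, if adjB v w = true then
    (1, (if tri 5 5 7 v w = true then 1 else 0), (if tri 5 6 6 v w = true then 1 else 0))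
    else (0, 0, 0)

lemma row_ok : ∀ v : Fin 114, row v = rowV v := by decide +kernel

lemma row_sum : ∑ v : Fin 114, rowV v = (672, 48, 48) := by decide +kernel

lemma adj_symm (v w : Fin 114) (h : adjB v w = true) : adjB w v = true := (big v w h).1

lemma adj_irr : ∀ v : Fin 114, adjB v v = false := by decide +kernel

lemma nx_ok (v w : Fin 114) (h : adjB v w = true) :
    adjB v (nx v w) = true ∧ pv v (nx v w) = w := (big v w h).2.1

lemma pv_ok (v w : Fin 114) (h : adjB v w = true) :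
    adjB v (pv v w) = true ∧ nx v (pv v w) = w := (big v w h).2.2.1

lemma cyc_ok (v w : Fin 114) (h : adjB v w = true) : ∃ k : Fin 8, (nx v)^[k.1] (fst v) = w :=
  (big v w h).2.2.2.1

lemma fst_ok : ∀ v : Fin 114, adjB v (fst v) = true := by decide +kernel

lemma par_ok : ∀ v : Fin 114, v ≠ 0 → fst v < v := by decide +kernel

lemma face_ok (v w : Fin 114) (h : adjB v w = true) :
    nx (nx w v) w = v ∧ nx v (nx w v) = w := (big v w h).2.2.2.2.1

lemma deg_ge : ∀ v : Fin 114, 5 ≤ dg v := by decide +kernel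

lemma sum_deg (v : Fin 114) : (∑ w : Fin 114, if adjB v w = true then 1 else 0) = dg v := by
  have h : (row v).1 = dg v := by rw [row_ok v]; rfl
  rw [← h, row, Prod.fst_sum]
  apply Finset.sum_congr rfl
  intro w _
  split_ifs <;> rfl

lemma sum_adj : (∑ v : Fin 114, ∑ w : Fin 114, if (adjB v w && true) = true then 1 else 0) =
    672 := by
  have h : (∑ v : Fin 114, rowV v).1 = 672 := by rw [row_sum]
  rw [← h, Prod.fst_sum]
  apply Finset.sum_congr rfl
  intro v _
  have h2 := sum_deg v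
  simp only [Bool.and_true]
  exact h2

lemma sum_557 : (∑ v : Fin 114, ∑ w : Fin 114,
    if (adjB v w && tri 5 5 7 v w) = true then 1 else 0) = 48 := by
  have h : (∑ v : Fin 114, rowV v).2.1 = 48 := by rw [row_sum]
  rw [← h, Prod.snd_sum, Prod.fst_sum]
  apply Finset.sum_congr rfl
  intro v _
  rw [← row_ok v, row, Prod.snd_sum, Prod.fst_sum]
  apply Finset.sum_congr rfl
  intro w _
  cases adjB v w <;> cases tri 5 5 7 v w <;> rfl

lemma sum_566 : (∑ v : Fin 114, ∑ w : Fin 114,
    if (adjB v w && tri 5 6 6 v w) = true then 1 else 0) = 48 := by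
  have h : (∑ v : Fin 114, rowV v).2.2 = 48 := by rw [row_sum]
  rw [← h, Prod.snd_sum, Prod.snd_sum]
  apply Finset.sum_congr rfl
  intro v _
  rw [← row_ok v, row, Prod.snd_sum, Prod.snd_sum]
  apply Finset.sum_congr rfl
  intro w _
  cases adjB v w <;> cases tri 5 6 6 v w <;> rfl

lemma sum_zero (q : Fin 114 → Fin 114 → Bool) (h : ∀ v w, adjB v w = true → q v w = false) :
    (∑ v : Fin 114, ∑ w : Fin 114, if (adjB v w && q v w) = true then 1 else 0) = 0 := by
  apply Finset.sum_eq_zero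
  intro v _
  apply Finset.sum_eq_zero
  intro w _
  by_cases hv : adjB v w = true
  · rw [h v w hv]; simp
  · simp [hv]

def G : SimpleGraph (Fin 114) where
  Adj v w := adjB v w = true
  symm := ⟨fun v w h => adj_symm v w h⟩
  loopless := ⟨fun v h => by
    have h' : adjB v v = true := h
    rw [adj_irr v] at h'
    exact Bool.noConfusion h'⟩

instance : DecidableRel G.Adj := fun v w => inferInstanceAs (Decidable (adjB v w = true))

def rotG : Perm G.Dart where
  toFun d := ⟨(d.fst, nx d.fst d.snd), (nx_ok d.fst d.snd d.adj).1⟩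
  invFun d := ⟨(d.fst, pv d.fst d.snd), (pv_ok d.fst d.snd d.adj).1⟩
  left_inv d := by
    apply SimpleGraph.Dart.ext
    apply Prod.ext
    · rfl
    · exact (nx_ok d.fst d.snd d.adj).2
  right_inv d := by
    apply SimpleGraph.Dart.ext
    apply Prod.ext
    · rfl
    · exact (pv_ok d.fst d.snd d.adj).2

lemma G_connected : G.Connected := by
  rw [SimpleGraph.connected_iff_exists_forall_reachable]
  refine ⟨0, ?_⟩
  have key : ∀ n : ℕ, ∀ v : Fin 114, v.1 = n → G.Reachable 0 v := by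
    intro n
    induction n using Nat.strong_induction_on with
    | _ n ih =>
      intro v hv
      by_cases h0 : v = 0
      · rw [h0]
      · have h1 : G.Adj (fst v) v := adj_symm _ _ (fst_ok v)
        have h2 := ih (fst v).1 (by rw [← hv]; exact par_ok v h0) (fst v) rfl
        exact h2.trans h1.reachable
  exact fun v => key v.1 v rfl

lemma rot_iter (v : Fin 114) (k : ℕ) (d : G.Dart) (hd : d.fst = v) :
    ((rotG ^ k) d).fst = v ∧ ((rotG ^ k) d).snd = (nx v)^[k] d.snd := by
  induction k with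
  | zero => exact ⟨by simpa using hd, by simp⟩
  | succ k ih =>
    rw [pow_succ', Perm.mul_apply, Function.iterate_succ_apply']
    obtain ⟨h1, h2⟩ := ih
    constructor
    · exact h1
    · show nx ((rotG ^ k) d).fst ((rotG ^ k) d).snd = _
      rw [h1, h2]

lemma rot_cycle0 (d : G.Dart) : rotG.SameCycle ⟨(d.fst, fst d.fst), fst_ok d.fst⟩ d := by
  obtain ⟨k, hk⟩ := cyc_ok d.fst d.snd d.adj
  obtain ⟨h1, h2⟩ := rot_iter d.fst k.1 ⟨(d.fst, fst d.fst), fst_ok d.fst⟩ rfl
  refine ⟨(k.1 : ℤ), ?_⟩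
  rw [zpow_natCast]
  apply SimpleGraph.Dart.ext
  apply Prod.ext
  · exact h1
  · exact h2.trans hk

lemma rot_cycleG (d e : G.Dart) (h : d.fst = e.fst) : rotG.SameCycle d e := by
  have h1 := rot_cycle0 d
  have h2 := rot_cycle0 e
  have h3 : (⟨(d.fst, fst d.fst), fst_ok d.fst⟩ : G.Dart) = ⟨(e.fst, fst e.fst), fst_ok e.fst⟩ := by
    apply SimpleGraph.Dart.ext
    show (d.fst, fst d.fst) = (e.fst, fst e.fst)
    rw [h]
  rw [h3] at h1
  exact h1.symm.trans h2

lemma face_three (d : G.Dart) : (rotG * revPerm G) ((rotG * revPerm G) ((rotG * revPerm G) d)) = d := by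
  have h := face_ok d.fst d.snd d.adj
  apply SimpleGraph.Dart.ext
  apply Prod.ext
  · show nx (nx d.snd d.fst) d.snd = d.fst
    exact h.1
  · show nx (nx (nx d.snd d.fst) d.snd) (nx d.snd d.fst) = d.snd
    rw [h.1]; exact h.2

lemma face_ne (d : G.Dart) : (rotG * revPerm G) d ≠ d := by
  intro h
  have h1 : d.snd = d.fst := congrArg (fun e : G.Dart => e.fst) h
  exact d.adj.ne h1.symm

/-- Darts of `G` satisfying a Boolean test, counted. -/
lemma card_darts (q : Fin 114 → Fin 114 → Bool) :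
    Nat.card {d : G.Dart // q d.fst d.snd = true} =
      ∑ v : Fin 114, ∑ w : Fin 114, if (adjB v w && q v w) = true then 1 else 0 := by
  rw [← Fintype.sum_prod_type (f := fun x : Fin 114 × Fin 114 =>
    if (adjB x.1 x.2 && q x.1 x.2) = true then 1 else 0), ← Finset.card_filter,
    ← Fintype.card_subtype, ← Nat.card_eq_fintype_card]
  apply Nat.card_congr
  exact {
    toFun := fun d => ⟨(d.1.fst, d.1.snd), by
      have h1 : adjB d.1.fst d.1.snd = true := d.1.adj
      simp [h1, d.2]⟩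
    invFun := fun x => ⟨⟨x.1, ((Bool.and_eq_true _ _).mp x.2).1⟩, ((Bool.and_eq_true _ _).mp x.2).2⟩
    left_inv := fun d => rfl
    right_inv := fun x => rfl }

lemma card_all : Nat.card G.Dart = 672 := by
  have h := card_darts (fun _ _ => true)
  rw [← sum_adj, ← h]
  exact Nat.card_congr ((Equiv.subtypeUnivEquiv (fun _ => rfl)).symm)

lemma card_edges : Nat.card G.edgeSet = 336 := by
  have h := G.dart_card_eq_twice_card_edges
  rw [← Nat.card_eq_fintype_card, card_all] at h
  rw [Nat.card_eq_fintype_card, ← SimpleGraph.edgeFinset_card]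
  omega

lemma card_faces : Nat.card (Quotient (Perm.SameCycle.setoid (rotG * revPerm G))) = 224 := by
  have h := three_mul_card (rotG * revPerm G) face_three face_ne (fun _ => True)
    (fun _ _ => trivial)
  have h1 : Nat.card {d : G.Dart // True} = 672 := by
    rw [← card_all]
    exact Nat.card_congr (Equiv.subtypeUnivEquiv (fun _ => trivial))
  rw [h1] at h
  have h2 : Nat.card {F : Quotient (Perm.SameCycle.setoid (rotG * revPerm G)) // ∃ d,
      (Quotient.mk _ d : Quotient (Perm.SameCycle.setoid (rotG * revPerm G))) = F ∧ True} =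
      Nat.card (Quotient (Perm.SameCycle.setoid (rotG * revPerm G))) :=
    Nat.card_congr (Equiv.subtypeUnivEquiv (fun F => by
      obtain ⟨d, hd⟩ := Quotient.exists_rep F
      exact ⟨d, hd, trivial⟩))
  omega

/-- The plane graph. -/
def P₀ : PlaneGraph (Fin 114) where
  graph := G
  rot := rotG
  rot_fst := fun _ => rfl
  rot_cycle := rot_cycleG
  connected := G_connected
  finite := inferInstance
  euler := by
    rw [card_faces, card_edges, Nat.card_eq_fintype_card, Fintype.card_fin]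

lemma deg_eq (v : Fin 114) : P₀.deg v = dg v := by
  rw [← sum_deg v, ← Finset.card_filter, ← Fintype.card_subtype, ← Nat.card_eq_fintype_card]
  rfl

lemma onTriangle_iff (i j k : ℕ) (d : G.Dart) :
    P₀.OnTriangle i j k d ↔ tri i j k d.fst d.snd = true := by
  unfold PlaneGraph.OnTriangle tri
  rw [deg_eq, deg_eq, deg_eq, decide_eq_true_iff]
  constructor
  · intro h; exact h.2
  · intro h; exact ⟨face_three d, h⟩

lemma tri_rot (i j k : ℕ) (d : G.Dart) (h : P₀.OnTriangle i j k d) :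
    P₀.OnTriangle i j k (P₀.faceNext d) := by
  obtain ⟨h1, h2⟩ := h
  refine ⟨congrArg _ h1, ?_⟩
  rw [← h2, h1]
  rw [Multiset.insert_eq_cons, Multiset.insert_eq_cons, Multiset.insert_eq_cons,
    Multiset.insert_eq_cons]
  rw [← Multiset.singleton_add, ← Multiset.singleton_add, ← Multiset.singleton_add,
    ← Multiset.singleton_add]
  abel

lemma f_mul_three (i j k : ℕ) : P₀.f i j k * 3 =
    ∑ v : Fin 114, ∑ w : Fin 114, if (adjB v w && tri i j k v w) = true then 1 else 0 := by
  have h := three_mul_card (rotG * revPerm G) face_three face_ne (P₀.OnTriangle i j k)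
    (fun d hd => tri_rot i j k d hd)
  have h1 : Nat.card {d : G.Dart // P₀.OnTriangle i j k d} =
      Nat.card {d : G.Dart // tri i j k d.fst d.snd = true} :=
    Nat.card_congr (Equiv.subtypeEquivRight (fun d => onTriangle_iff i j k d))
  rw [h1, card_darts] at h
  exact h

lemma f555 : P₀.f 5 5 5 = 0 := by
  have h := f_mul_three 5 5 5
  rw [sum_zero _ (fun v w h => (big v w h).2.2.2.2.2.1)] at h
  omega

lemma f556 : P₀.f 5 5 6 = 0 := by
  have h := f_mul_three 5 5 6
  rw [sum_zero _ (fun v w h => (big v w h).2.2.2.2.2.2)] at h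
  omega

lemma f557 : P₀.f 5 5 7 = 16 := by
  have h := f_mul_three 5 5 7
  rw [sum_557] at h
  omega

lemma f566 : P₀.f 5 6 6 = 16 := by
  have h := f_mul_three 5 6 6
  rw [sum_566] at h
  omega

/-- The inequality `(∗_c)` for a plane graph. -/
def Star (c : ℝ) {V : Type} (P : PlaneGraph V) : Prop :=
  144 ≤ 18 * (P.f 5 5 5 : ℝ) + 9 * (P.f 5 5 6 : ℝ) + c * (P.f 5 5 7 : ℝ) + 4 * (P.f 5 6 6 : ℝ)

/-- **MP_cadcf7_co, Q1.**  The coefficient of `f_{5,5,7}` cannot be lowered below `5`: if `(∗_c)`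
holds for every connected plane graph of minimum degree at least `5`, then `c ≥ 5`.  Moreover one
graph on 114 vertices violates `(∗_c)` for every `c < 5`. -/
theorem result :
    (∃ P : PlaneGraph (Fin 114), (∀ v, 5 ≤ P.deg v) ∧ P.f 5 5 5 = 0 ∧ P.f 5 5 6 = 0 ∧
      P.f 5 5 7 = 16 ∧ P.f 5 6 6 = 16 ∧ ∀ c : ℝ, c < 5 → ¬ Star c P) ∧
    ∀ c : ℝ, (∀ (n : ℕ) (P : PlaneGraph (Fin n)), (∀ v, 5 ≤ P.deg v) → Star c P) → 5 ≤ c := by
  have hstar : ∀ c : ℝ, c < 5 → ¬ Star c P₀ := by
    intro c hc h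
    unfold Star at h
    rw [f555, f556, f557, f566] at h
    push_cast at h
    linarith
  have hdeg : ∀ v, 5 ≤ P₀.deg v := fun v => by rw [deg_eq]; exact deg_ge v
  refine ⟨⟨P₀, hdeg, f555, f556, f557, f566, hstar⟩, ?_⟩
  intro c hc
  by_contra hlt
  exact hstar c (not_le.mp hlt) (hc 114 P₀ hdeg)

end Pool.Agent.Results.MP_cadcf7_co.CoefficientFive
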